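import Mathlib
import Pool.Agent.Lib_b63848.Algo

set_option autoImplicit false

namespace Pool.Agent.Results.MP_b63848_al.FiberProductDecidable

open Pool.Agent.Lib_b63848

/-- The word `u` over the alphabet `{0, ..., m - 1}`, as the list of its letters. -/
def code {m : ℕ} (u : FreeSemigroup (Fin m)) : List ℕ := (u.head :: u.tail).map Fin.val

/-- The input of the algorithm: the list of the pairs of words in `X`. -/
def codeX {m n : ℕ} (X : List (FreeSemigroup (Fin m) × FreeSemigroup (Fin n))) :
    List (List ℕ × List ℕ) :=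
  X.map (fun p => (code p.1, code p.2))

/-- The subsemigroup generated by the pairs in `X`. -/
def gen {m n : ℕ} (X : List (FreeSemigroup (Fin m) × FreeSemigroup (Fin n))) :
    Subsemigroup (FreeSemigroup (Fin m) × FreeSemigroup (Fin n)) :=
  Subsemigroup.closure {p | p ∈ X}

/-- `T` is the fiber product of two surjective homomorphisms onto a common semigroup. -/
def IsFiberProduct {A B : Type} [Semigroup A] [Semigroup B] (T : Subsemigroup (A × B)) : Prop :=
  ∃ (Q : Type) (_ : Semigroup Q) (φ : A →ₙ* Q) (ψ : B →ₙ* Q),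
    Function.Surjective φ ∧ Function.Surjective ψ ∧ ∀ a b, (a, b) ∈ T ↔ φ a = ψ b

/-! ### Fleischer's criterion -/

section Fleischer

variable {A B : Type} [Semigroup A] [Semigroup B] (T : Subsemigroup (A × B))

/-- Subdirect and difunctional. -/
def Difun : Prop :=
  (∀ a, ∃ b, (a, b) ∈ T) ∧ (∀ b, ∃ a, (a, b) ∈ T) ∧
    ∀ a₁ b₁ a₂ b₂, (a₁, b₁) ∈ T → (a₂, b₁) ∈ T → (a₂, b₂) ∈ T → (a₁, b₂) ∈ T

/-- The kernel congruence. -/
def kerCon (h : Difun T) : Con A where
  r a a' := ∃ b, (a, b) ∈ T ∧ (a', b) ∈ T
  iseqv := by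
    obtain ⟨h1, h2, h3⟩ := h
    refine ⟨fun a => ?_, ?_, ?_⟩
    · obtain ⟨b, hb⟩ := h1 a
      exact ⟨b, hb, hb⟩
    · rintro a a' ⟨b, hb, hb'⟩
      exact ⟨b, hb', hb⟩
    · rintro a a' a'' ⟨b, hb, hb'⟩ ⟨c, hc, hc'⟩
      exact ⟨c, h3 a b a' c hb hb' hc, hc'⟩
  mul' := by
    rintro a a' c c' ⟨b, hb, hb'⟩ ⟨d, hd, hd'⟩
    exact ⟨b * d, T.mul_mem hb hd, T.mul_mem hb' hd'⟩

theorem fiber_iff : IsFiberProduct T ↔ Difun T := by
  constructor
  · rintro ⟨Q, _, φ, ψ, hφ, hψ, h⟩
    refine ⟨fun a => ?_, fun b => ?_, ?_⟩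
    · obtain ⟨b, hb⟩ := hψ (φ a)
      exact ⟨b, (h a b).mpr hb.symm⟩
    · obtain ⟨a, ha⟩ := hφ (ψ b)
      exact ⟨a, (h a b).mpr ha⟩
    · intro a₁ b₁ a₂ b₂ h1 h2 h3
      rw [h] at h1 h2 h3 ⊢
      rw [h1, ← h2, h3]
  · intro hT
    have hT' := hT
    obtain ⟨h1, h2, h3⟩ := hT'
    let c := kerCon T hT
    choose s hs using h2
    have hc : ∀ a a' : A, (a : c.Quotient) = a' ↔ ∃ b, (a, b) ∈ T ∧ (a', b) ∈ T :=
      fun a a' => Con.eq c
    refine ⟨c.Quotient, inferInstance,
      ⟨fun a => (a : c.Quotient), fun _ _ => rfl⟩,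
      ⟨fun b => (s b : c.Quotient), ?_⟩, ?_, ?_, ?_⟩
    · intro b b'
      show ((s (b * b') : A) : c.Quotient) = ((s b * s b' : A) : c.Quotient)
      rw [hc]
      exact ⟨b * b', hs _, T.mul_mem (hs b) (hs b')⟩
    · intro q
      induction q using Con.induction_on with
      | H a => exact ⟨a, rfl⟩
    · intro q
      induction q using Con.induction_on with
      | H a =>
        obtain ⟨b, hb⟩ := h1 a
        refine ⟨b, ?_⟩
        show ((s b : A) : c.Quotient) = a
        rw [hc]
        exact ⟨b, hs b, hb⟩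
    · intro a b
      show _ ↔ (a : c.Quotient) = ((s b : A) : c.Quotient)
      rw [hc]
      constructor
      · intro h
        exact ⟨b, h, hs b⟩
      · rintro ⟨d, hd, hd'⟩
        exact h3 a d (s b) b hd hd' (hs b)

end Fleischer

/-! ### Words as lists -/

section Lists

variable {m n : ℕ}

/-- The list of letters. -/
def toL {α : Type} (u : FreeSemigroup α) : List α := u.head :: u.tail

theorem toL_mul {α : Type} (u v : FreeSemigroup α) : toL (u * v) = toL u ++ toL v := by simp [toL]

theorem toL_injective {α : Type} : Function.Injective (toL : FreeSemigroup α → List α) := by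
  intro u v h
  have h' : u.head :: u.tail = v.head :: v.tail := h
  rw [List.cons_eq_cons] at h'
  exact FreeSemigroup.ext h'.1 h'.2

theorem toL_ne {α : Type} (u : FreeSemigroup α) : toL u ≠ [] := by simp [toL]

theorem exists_toL {α : Type} (l : List α) (h : l ≠ []) : ∃ u : FreeSemigroup α, toL u = l := by
  cases l with
  | nil => exact absurd rfl h
  | cons a l => exact ⟨⟨a, l⟩, rfl⟩

/-- The generating pairs as lists of letters. -/
def listX (X : List (FreeSemigroup (Fin m) × FreeSemigroup (Fin n))) :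
    List (List (Fin m) × List (Fin n)) :=
  X.map (fun p => (toL p.1, toL p.2))

theorem codeX_eq (X : List (FreeSemigroup (Fin m) × FreeSemigroup (Fin n))) :
    codeX X = (listX X).map (Prod.map (List.map Fin.val) (List.map Fin.val)) := by
  unfold codeX listX
  rw [List.map_map]
  rfl

theorem mem_gen_iff (X : List (FreeSemigroup (Fin m) × FreeSemigroup (Fin n)))
    (u : FreeSemigroup (Fin m)) (v : FreeSemigroup (Fin n)) :
    (u, v) ∈ gen X ↔ S (listX X) (toL u) (toL v) := by
  constructor
  · intro h
    have : ∀ p ∈ gen X, S (listX X) (toL p.1) (toL p.2) := by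
      intro p hp
      refine Subsemigroup.closure_induction (p := fun p _ => S (listX X) (toL p.1) (toL p.2))
        ?_ ?_ hp
      · intro p hp
        exact S.of_mem (List.mem_map.mpr ⟨p, hp, rfl⟩)
      · intro p q _ _ h1 h2
        show S (listX X) (toL (p.1 * q.1)) (toL (p.2 * q.2))
        rw [toL_mul, toL_mul]
        exact h1.mul h2
    exact this (u, v) h
  · intro h
    have key : ∀ (l : List (Fin m)) (l' : List (Fin n)), S (listX X) l l' →
        (l = [] ∧ l' = []) ∨ ∃ u v, toL u = l ∧ toL v = l' ∧ (u, v) ∈ gen X := by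
      intro l l' h
      induction h with
      | nil => exact Or.inl ⟨rfl, rfl⟩
      | @snoc l l' x y _ hx ih =>
        right
        obtain ⟨p, hp, e⟩ := List.mem_map.mp hx
        have e1 : toL p.1 = x := congrArg Prod.fst e
        have e2 : toL p.2 = y := congrArg Prod.snd e
        have hpg : p ∈ gen X := Subsemigroup.subset_closure hp
        rcases ih with ⟨rfl, rfl⟩ | ⟨u, v, rfl, rfl, huv⟩
        · exact ⟨p.1, p.2, by simpa using e1, by simpa using e2, hpg⟩
        · refine ⟨u * p.1, v * p.2, ?_, ?_, (gen X).mul_mem huv hpg⟩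
          · rw [toL_mul, e1]
          · rw [toL_mul, e2]
    rcases key _ _ h with ⟨h1, _⟩ | ⟨u', v', h1, h2, h3⟩
    · exact absurd h1 (toL_ne u)
    · rw [← toL_injective h1, ← toL_injective h2]
      exact h3

end Lists

/-! ### The algorithm -/

/-- An upper bound for the lengths of the words in the input. -/
def bound (Y : List (List ℕ × List ℕ)) : ℕ := (Y.flatMap (fun p => p.1 ++ p.2)).length + 1

/-- `N ^ 3 * L N` -/
def big (N : ℕ) : ℕ := N * N * N * (N * N * N * N + N * N * N + N * N + N + 2)

theorem big_eq (N : ℕ) : big N = N ^ 3 * L N := by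
  unfold big L; ring

/-- The property decided by the algorithm. -/
def Accept (a : ℕ × ℕ × List (List ℕ × List ℕ)) : Prop :=
  (∀ i < a.1, ∃ p ∈ a.2.2, p.1 = [i]) ∧ (∀ j < a.2.1, ∃ p ∈ a.2.2, p.2 = [j]) ∧
    Test a.2.2 (big (bound a.2.2)) (bound a.2.2 * big (bound a.2.2))

theorem primrec_accept : PrimrecPred Accept := by
  have hb : Primrec bound := by
    refine Primrec.succ.comp (Primrec.list_length.comp ?_)
    exact Primrec.list_flatMap Primrec.id
      (Primrec.list_append.comp (Primrec.fst.comp Primrec.snd) (Primrec.snd.comp Primrec.snd))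
  have hbig : Primrec big := by
    have hm : ∀ {f g : ℕ → ℕ}, Primrec f → Primrec g → Primrec (fun N => f N * g N) :=
      fun hf hg => Primrec.nat_mul.comp hf hg
    have ha : ∀ {f g : ℕ → ℕ}, Primrec f → Primrec g → Primrec (fun N => f N + g N) :=
      fun hf hg => Primrec.nat_add.comp hf hg
    have hi : Primrec (fun N : ℕ => N) := Primrec.id
    exact hm (hm (hm hi hi) hi)
      (ha (ha (ha (ha (hm (hm (hm hi hi) hi) hi) (hm (hm hi hi) hi)) (hm hi hi)) hi)
        (Primrec.const 2))
  have hY : Primrec (fun a : ℕ × ℕ × List (List ℕ × List ℕ) => a.2.2) :=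
    Primrec.snd.comp Primrec.snd
  refine PrimrecPred.and ?_ (PrimrecPred.and ?_ ?_)
  · have h1 : PrimrecRel (fun (p : List ℕ × List ℕ) (i : ℕ) => p.1 = [i]) :=
      Primrec.eq.comp (Primrec.fst.comp Primrec.fst)
        (Primrec.list_cons.comp Primrec.snd (Primrec.const []))
    have h2 := h1.exists_mem_list
    have h3 : PrimrecRel (fun (i : ℕ) (Y : List (List ℕ × List ℕ)) => ∃ p ∈ Y, p.1 = [i]) :=
      PrimrecRel.comp h2 Primrec.snd Primrec.fst
    have h4 : PrimrecRel (fun (l : List ℕ) (Y : List (List ℕ × List ℕ)) =>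
        ∀ i ∈ l, ∃ p ∈ Y, p.1 = [i]) := h3.forall_mem_list
    have h5 := PrimrecRel.comp h4
      (Primrec.list_range.comp (Primrec.fst :
        Primrec (fun a : ℕ × ℕ × List (List ℕ × List ℕ) => a.1))) hY
    exact h5.of_eq (fun a => by simp)
  · have h1 : PrimrecRel (fun (p : List ℕ × List ℕ) (i : ℕ) => p.2 = [i]) :=
      Primrec.eq.comp (Primrec.snd.comp Primrec.fst)
        (Primrec.list_cons.comp Primrec.snd (Primrec.const []))
    have h2 := h1.exists_mem_list
    have h3 : PrimrecRel (fun (i : ℕ) (Y : List (List ℕ × List ℕ)) => ∃ p ∈ Y, p.2 = [i]) :=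
      PrimrecRel.comp h2 Primrec.snd Primrec.fst
    have h4 : PrimrecRel (fun (l : List ℕ) (Y : List (List ℕ × List ℕ)) =>
        ∀ i ∈ l, ∃ p ∈ Y, p.2 = [i]) := h3.forall_mem_list
    have h5 := PrimrecRel.comp h4
      (Primrec.list_range.comp (Primrec.fst.comp Primrec.snd :
        Primrec (fun a : ℕ × ℕ × List (List ℕ × List ℕ) => a.2.1))) hY
    exact h5.of_eq (fun a => by simp)
  · have h1 : Primrec (fun a : ℕ × ℕ × List (List ℕ × List ℕ) => big (bound a.2.2)) :=
      hbig.comp (hb.comp hY)
    have h2 : Primrec (fun a : ℕ × ℕ × List (List ℕ × List ℕ) =>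
        bound a.2.2 * big (bound a.2.2)) :=
      Primrec.nat_mul.comp (hb.comp hY) h1
    exact PrimrecPred.comp primrec_test (hY.pair (h1.pair h2))

theorem le_bound {Y : List (List ℕ × List ℕ)} {p : List ℕ × List ℕ} (hp : p ∈ Y) :
    p.1.length ≤ bound Y ∧ p.2.length ≤ bound Y := by
  unfold bound
  have h1 : (p.1 ++ p.2).length ≤ (Y.flatMap (fun p => p.1 ++ p.2)).length := by
    apply List.Sublist.length_le
    induction Y with
    | nil => simp at hp
    | cons q Y ih =>
      rw [List.flatMap_cons]
      rw [List.mem_cons] at hp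
      rcases hp with rfl | hp
      · exact List.sublist_append_left _ _
      · exact (ih hp).trans (List.sublist_append_right _ _)
  rw [List.length_append] at h1
  omega

theorem accept_iff {m n : ℕ} (X : List (FreeSemigroup (Fin m) × FreeSemigroup (Fin n))) :
    Accept (m, n, codeX X) ↔ IsFiberProduct (gen X) := by
  rw [fiber_iff]
  have hlet1 : (∀ i < m, ∃ p ∈ codeX X, p.1 = [i]) ↔ ∀ a : Fin m, ∃ y, ([a], y) ∈ listX X := by
    rw [codeX_eq]
    constructor
    · intro h a
      obtain ⟨p, hp, e⟩ := h a a.2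
      rw [List.mem_map] at hp
      obtain ⟨q, hq, rfl⟩ := hp
      refine ⟨q.2, ?_⟩
      have : q.1 = [a] := by
        apply List.map_injective_iff.mpr Fin.val_injective
        exact e
      rw [← this]
      exact hq
    · intro h i hi
      obtain ⟨y, hy⟩ := h ⟨i, hi⟩
      exact ⟨_, List.mem_map.mpr ⟨_, hy, rfl⟩, rfl⟩
  have hlet2 : (∀ j < n, ∃ p ∈ codeX X, p.2 = [j]) ↔ ∀ b : Fin n, ∃ x, (x, [b]) ∈ listX X := by
    rw [codeX_eq]
    constructor
    · intro h a
      obtain ⟨p, hp, e⟩ := h a a.2
      rw [List.mem_map] at hp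
      obtain ⟨q, hq, rfl⟩ := hp
      refine ⟨q.1, ?_⟩
      have : q.2 = [a] := by
        apply List.map_injective_iff.mpr Fin.val_injective
        exact e
      rw [← this]
      exact hq
    · intro h i hi
      obtain ⟨y, hy⟩ := h ⟨i, hi⟩
      exact ⟨_, List.mem_map.mpr ⟨_, hy, rfl⟩, rfl⟩
  have hne1 : ∀ p ∈ listX X, p.1 ≠ [] := by
    intro p hp
    obtain ⟨q, _, rfl⟩ := List.mem_map.mp hp
    exact toL_ne _
  have hne2 : ∀ p ∈ listX X, p.2 ≠ [] := by
    intro p hp
    obtain ⟨q, _, rfl⟩ := List.mem_map.mp hp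
    exact toL_ne _
  have hlen : ∀ p ∈ listX X, p.1.length ≤ bound (codeX X) ∧ p.2.length ≤ bound (codeX X) := by
    intro p hp
    have h1 : Prod.map (List.map Fin.val) (List.map Fin.val) p ∈ codeX X := by
      rw [codeX_eq]
      exact List.mem_map.mpr ⟨p, hp, rfl⟩
    have h2 := le_bound h1
    simpa using h2
  have hN : 1 ≤ bound (codeX X) := by unfold bound; omega
  have hyp : (∀ a : Fin m, ∃ y, ([a], y) ∈ listX X) → (∀ b : Fin n, ∃ x, (x, [b]) ∈ listX X) →
      Hyp (listX X) (bound (codeX X)) := fun h1 h2 =>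
    ⟨hne1, hne2, fun p hp => (hlen p hp).1, fun p hp => (hlen p hp).2, h1, h2⟩
  have htest : Test (codeX X) (big (bound (codeX X))) (bound (codeX X) * big (bound (codeX X))) ↔
      Test (listX X) (big (bound (codeX X))) (bound (codeX X) * big (bound (codeX X))) := by
    rw [codeX_eq]
    exact test_map _ _ Fin.val_injective Fin.val_injective _ _ _
  constructor
  · rintro ⟨h1, h2, h3⟩
    have h1' := hlet1.mp h1
    have h2' := hlet2.mp h2
    have H := hyp h1' h2'
    have h3' := (test_iff H hN _ (big_eq _).ge).mp (htest.mp h3)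
    refine ⟨?_, ?_, ?_⟩
    · intro u
      obtain ⟨l, hl⟩ := total1 H (toL u)
      have hlne : l ≠ [] := by
        rintro rfl
        have := (hl.len H).2
        simp [toL] at this
      obtain ⟨v, rfl⟩ := exists_toL l hlne
      exact ⟨v, (mem_gen_iff X u v).mpr hl⟩
    · intro v
      obtain ⟨l, hl⟩ := total2 H (toL v)
      have hlne : l ≠ [] := by
        rintro rfl
        have := (hl.len H).1
        simp [toL] at this
      obtain ⟨u, rfl⟩ := exists_toL l hlne
      exact ⟨u, (mem_gen_iff X u v).mpr hl⟩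
    · intro a₁ b₁ a₂ b₂ k1 k2 k3
      rw [mem_gen_iff] at k1 k2 k3 ⊢
      exact h3' _ _ _ _ k1 k2 k3
  · rintro ⟨h1, h2, h3⟩
    have h1' : ∀ a : Fin m, ∃ y, ([a], y) ∈ listX X := by
      intro a
      obtain ⟨v, hv⟩ := h1 (FreeSemigroup.of a)
      rw [mem_gen_iff] at hv
      have e : toL (FreeSemigroup.of a) = [a] := rfl
      rw [e] at hv
      generalize toL v = l at hv
      generalize hw : [a] = w at hv
      cases hv with
      | nil => simp at hw
      | @snoc u v x y hS hx =>
        have hxne := hne1 _ hx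
        have hlen := congrArg List.length hw
        rw [List.length_append] at hlen
        have := List.length_pos_of_ne_nil hxne
        simp only [List.length_cons, List.length_nil] at hlen this
        have hu : u = [] := List.eq_nil_of_length_eq_zero (by omega)
        subst hu
        exact ⟨y, by simpa using hx⟩
    have h2' : ∀ b : Fin n, ∃ x, (x, [b]) ∈ listX X := by
      intro b
      obtain ⟨u, hu⟩ := h2 (FreeSemigroup.of b)
      rw [mem_gen_iff] at hu
      have e : toL (FreeSemigroup.of b) = [b] := rfl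
      rw [e] at hu
      generalize toL u = l at hu
      generalize hw : [b] = w at hu
      cases hu with
      | nil => simp at hw
      | @snoc u v x y hS hx =>
        have hxne := hne2 _ hx
        have hlen := congrArg List.length hw
        rw [List.length_append] at hlen
        have := List.length_pos_of_ne_nil hxne
        simp only [List.length_cons, List.length_nil] at hlen this
        have hu : v = [] := List.eq_nil_of_length_eq_zero (by omega)
        subst hu
        exact ⟨x, by simpa using hx⟩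
    have H := hyp h1' h2'
    refine ⟨hlet1.mpr h1', hlet2.mpr h2', htest.mpr ((test_iff H hN _ (big_eq _).ge).mpr ?_)⟩
    intro u₁ v₁ u₂ v₂ k1 k2 k3
    rcases eq_or_ne v₁ [] with rfl | hv₁
    · have e1 : u₁ = [] := List.eq_nil_of_length_eq_zero (by have := (k1.len H).2; simpa using this)
      have e2 : u₂ = [] := List.eq_nil_of_length_eq_zero (by have := (k2.len H).2; simpa using this)
      rw [e1, ← e2]
      exact k3
    · have hu₁ : u₁ ≠ [] := by
        rintro rfl
        have := (k1.len H).1
        exact hv₁ (List.eq_nil_of_length_eq_zero (by simpa using this))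
      have hu₂ : u₂ ≠ [] := by
        rintro rfl
        have := (k2.len H).1
        exact hv₁ (List.eq_nil_of_length_eq_zero (by simpa using this))
      have hv₂ : v₂ ≠ [] := by
        rintro rfl
        have := (k3.len H).2
        exact hu₂ (List.eq_nil_of_length_eq_zero (by simpa using this))
      obtain ⟨a₁, rfl⟩ := exists_toL u₁ hu₁
      obtain ⟨a₂, rfl⟩ := exists_toL u₂ hu₂
      obtain ⟨b₁, rfl⟩ := exists_toL v₁ hv₁
      obtain ⟨b₂, rfl⟩ := exists_toL v₂ hv₂
      rw [← mem_gen_iff] at k1 k2 k3 ⊢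
      exact h3 _ _ _ _ k1 k2 k3

/-- There is an algorithm (a computable function `D`) which, given `m`, `n` and a finite list `X`
of pairs of nonempty words over the alphabets `{0, ..., m-1}` and `{0, ..., n-1}`, decides
whether the subsemigroup generated by `X` is a fiber product of the two free semigroups. -/
theorem result :
    ∃ D : ℕ × ℕ × List (List ℕ × List ℕ) → Bool, Computable D ∧
      ∀ (m n : ℕ) (X : List (FreeSemigroup (Fin m) × FreeSemigroup (Fin n))),
        D (m, n, codeX X) = true ↔ IsFiberProduct (gen X) := by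
  classical
  refine ⟨fun a => decide (Accept a), ?_, ?_⟩
  · exact primrec_accept.decide.to_comp
  · intro m n X
    rw [decide_eq_true_iff]
    exact accept_iff X

end Pool.Agent.Results.MP_b63848_al.FiberProductDecidable
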